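import Pool.Agent.LAT.StmtsM

/-!
# Squad LAT, row INC: inclusion of row spans, with unique certificates
-/

set_option autoImplicit false

namespace Pool.Agent.LAT.H34

open Matrix Pool.Agent.LAT

theorem mul_row {k m : ℕ} (X : Matrix (Fin k) (Fin m) ℤ) (B' : Matrix (Fin m) (Fin m) ℤ)
    (i : Fin k) : (X * B') i = ∑ l, X i l • B' l := by
  funext j
  rw [Matrix.mul_apply, Finset.sum_apply]
  refine Finset.sum_congr rfl fun l _ => ?_
  rw [Pi.smul_apply, smul_eq_mul]

/-- the row INC -/
theorem inc (hnm : HnmStmt) : IncStmt := by
  intro k m B B' hB'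
  obtain ⟨-, h2, h3⟩ := hnm m B' hB'
  refine ⟨⟨fun h => ?_, ?_⟩, ?_, ?_⟩
  · have h4 : ∀ i, ∃ x : Fin m → ℤ, (∀ l, B' l l = 0 → x l = 0) ∧ B i = ∑ l, x l • B' l :=
      fun i => h3 (B i) (h (Submodule.subset_span ⟨i, rfl⟩))
    choose x hx hx' using h4
    refine ⟨Matrix.of x, ?_, fun i j hj => hx i j hj⟩
    funext i
    rw [mul_row]
    exact hx' i
  · rintro ⟨X, hX, -⟩
    refine Submodule.span_le.2 ?_
    rintro _ ⟨i, rfl⟩
    change B i ∈ rows B'
    rw [hX, mul_row]
    exact Submodule.sum_mem _ fun l _ =>
      Submodule.smul_mem _ _ (Submodule.subset_span ⟨l, rfl⟩)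
  · intro X X' hX hX0 hX' hX0'
    funext i
    have h4 := h2 (fun l => X i l - X' i l) (fun l hl => by rw [hX0 i l hl, hX0' i l hl, sub_zero])
      (by
        simp only [sub_smul]
        rw [Finset.sum_sub_distrib, ← mul_row, ← mul_row, ← hX, ← hX', sub_self])
    funext j
    have h5 := congrFun h4 j
    exact sub_eq_zero.1 h5
  · intro b hb hBb hB'b X hX hX0 i j
    set P : Matrix (Fin m) (Fin m) ℤ := Matrix.diagonal fun l => if B' l l = 0 then 0 else 1
      with hP
    set T : Matrix (Fin m) (Fin m) ℤ := B' * P + EE B' with hT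
    have hTe : ∀ a c, T a c = if B' c c = 0 then (if a = c then 1 else 0) else B' a c := by
      intro a c
      rw [hT, Matrix.add_apply, hP, Matrix.mul_diagonal, EE, Matrix.diagonal_apply]
      by_cases hc : B' c c = 0
      · rw [if_pos hc, mul_zero, zero_add, if_pos hc]
        by_cases hac : a = c
        · subst hac
          rw [if_pos rfl, if_pos hc, if_pos rfl]
        · rw [if_neg hac, if_neg hac]
      · rw [if_neg hc, mul_one, if_neg hc]
        by_cases hac : a = c
        · subst hac
          rw [if_pos rfl, if_neg hc, add_zero]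
        · rw [if_neg hac, add_zero]
    have hTb : ∀ a c, |T a c| ≤ b := by
      intro a c
      rw [hTe]
      split_ifs
      · simpa using hb
      · rw [abs_zero]; omega
      · exact hB'b a c
    have hdet : T.det = ∏ l, T l l := by
      refine Matrix.det_of_isLowerTriangular (M := T) ?_
      intro a c hac
      have hac' : a < c := hac
      rw [hTe]
      split_ifs with h5 h6
      · exact absurd h6 (ne_of_lt hac')
      · rfl
      · exact hB'.tri a c hac'
    have hdet1 : 1 ≤ T.det := by
      rw [hdet]
      have h9 : 0 < ∏ l, T l l := by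
        refine Finset.prod_pos fun l _ => ?_
        rw [hTe]
        by_cases h5 : B' l l = 0
        · rw [if_pos h5, if_pos rfl]
          exact Int.one_pos
        · rw [if_neg h5]
          exact lt_of_le_of_ne (hB'.nonneg l) (Ne.symm h5)
      omega
    have hXT : X * T = B * P := by
      have h5 : X * EE B' = 0 := by
        funext a c
        rw [EE, Matrix.mul_diagonal]
        by_cases hc : B' c c = 0
        · rw [hX0 a c hc, zero_mul]; rfl
        · rw [if_neg hc, mul_zero]; rfl
      rw [hT, Matrix.mul_add, h5, add_zero, ← Matrix.mul_assoc, ← hX]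
    have h6 : T.det • X = B * P * T.adjugate := by
      rw [← hXT, Matrix.mul_assoc, Matrix.mul_adjugate, Matrix.mul_smul, Matrix.mul_one]
    have h7 : T.det * X i j = ∑ l, (B * P) i l * T.adjugate l j := by
      have := congrFun (congrFun h6 i) j
      rw [Matrix.smul_apply, smul_eq_mul, Matrix.mul_apply] at this
      exact this
    have hadj : ∀ l, |T.adjugate l j| ≤ (m.factorial : ℤ) * b ^ m := by
      intro l
      rw [Matrix.adjugate_apply]
      have h8 := Matrix.det_le (A := T.updateRow j (Pi.single l 1)) (abv := AbsoluteValue.abs)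
        (x := b) (fun a c => by
          change |(T.updateRow j (Pi.single l 1)) a c| ≤ b
          by_cases ha : a = j
          · subst ha
            rw [Matrix.updateRow_self, Pi.single_apply]
            split_ifs
            · simpa using hb
            · rw [abs_zero]; omega
          · rw [Matrix.updateRow_ne ha]
            exact hTb a c)
      rw [Fintype.card_fin, nsmul_eq_mul] at h8
      exact h8
    have hBP : ∀ l, |(B * P) i l| ≤ b := by
      intro l
      rw [hP, Matrix.mul_diagonal]
      split_ifs
      · rw [mul_zero, abs_zero]; omega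
      · rw [mul_one]; exact hBb i l
    calc |X i j| = 1 * |X i j| := (one_mul _).symm
      _ ≤ |T.det| * |X i j| := by
          refine mul_le_mul_of_nonneg_right ?_ (abs_nonneg _)
          exact hdet1.trans (le_abs_self _)
      _ = |∑ l, (B * P) i l * T.adjugate l j| := by rw [← abs_mul, h7]
      _ ≤ ∑ l, |(B * P) i l * T.adjugate l j| := Finset.abs_sum_le_sum_abs _ _
      _ ≤ ∑ _l : Fin m, b * ((m.factorial : ℤ) * b ^ m) := by
          refine Finset.sum_le_sum fun l _ => ?_
          rw [abs_mul]
          exact mul_le_mul (hBP l) (hadj l) (abs_nonneg _) (by omega)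
      _ = (m : ℤ) * b * ((m.factorial : ℤ) * b ^ m) := by
          rw [Finset.sum_const, Finset.card_univ, Fintype.card_fin, nsmul_eq_mul]
          ring

end Pool.Agent.LAT.H34
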